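import Mathlib
import Pool.Agent.U865.EF.Fac
import Pool.Agent.TH658.Eq.Newt

/-!
# Local factors: linear algebra
-/

set_option autoImplicit false
set_option linter.unusedSectionVars false
set_option linter.style.haveILetI false

namespace Pool.Agent.U434.LF

open Module Polynomial

section newton

/-- A polynomial `det (1 - T A)` with rational traces is rational, and it only depends on the traces. -/
theorem exists_rev {L : Type} {Ω : L → Type} [∀ ℓ, Field (Ω ℓ)] [∀ ℓ, CharZero (Ω ℓ)]
    {V : L → Type} [∀ ℓ, AddCommGroup (V ℓ)] [∀ ℓ, Module (Ω ℓ) (V ℓ)]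
    [∀ ℓ, FiniteDimensional (Ω ℓ) (V ℓ)] (A : ∀ ℓ, Module.End (Ω ℓ) (V ℓ)) (t : ℕ → ℚ)
    (ht : ∀ ℓ k, LinearMap.trace (Ω ℓ) (V ℓ) (A ℓ ^ k) = t k) [Nonempty L] :
    ∃ C : ℚ[X], C.Monic ∧ ∀ ℓ, (A ℓ).charpoly = C.map (algebraMap ℚ (Ω ℓ)) := by
  classical
  -- a common dimension
  have hdim : ∀ ℓ ℓ', finrank (Ω ℓ) (V ℓ) = finrank (Ω ℓ') (V ℓ') := by
    intro ℓ ℓ'
    have h1 := ht ℓ 0
    have h2 := ht ℓ' 0
    rw [pow_zero, LinearMap.trace_one] at h1 h2
    have h3 : ((finrank (Ω ℓ) (V ℓ) : ℕ) : ℚ) = t 0 := by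
      have : ((finrank (Ω ℓ) (V ℓ) : ℚ) : Ω ℓ) = (t 0 : Ω ℓ) := by
        rw [← h1]; norm_cast
      exact_mod_cast this
    have h4 : ((finrank (Ω ℓ') (V ℓ') : ℕ) : ℚ) = t 0 := by
      have : ((finrank (Ω ℓ') (V ℓ') : ℚ) : Ω ℓ') = (t 0 : Ω ℓ') := by
        rw [← h2]; norm_cast
      exact_mod_cast this
    exact_mod_cast h3.trans h4.symm
  obtain ⟨ℓ₁⟩ := ‹Nonempty L›
  set n := finrank (Ω ℓ₁) (V ℓ₁) with hn
  have hM : ∀ ℓ, ∃ M : Matrix (Fin n) (Fin n) (Ω ℓ), (A ℓ).charpoly = M.charpoly ∧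
      ∀ k, (M ^ k).trace = (t k : Ω ℓ) := by
    intro ℓ
    set b := Module.finBasisOfFinrankEq (Ω ℓ) (V ℓ) (hdim ℓ ℓ₁) with hb
    refine ⟨LinearMap.toMatrix b b (A ℓ), (LinearMap.charpoly_toMatrix (A ℓ) b).symm,
      fun k => ?_⟩
    rw [← ht ℓ k, LinearMap.trace_eq_matrix_trace (Ω ℓ) b]
    congr 1
    exact ((LinearMap.toMatrixAlgEquiv b).map_pow (A ℓ) k).symm
  choose M hM1 hM2 using hM
  have hc : ∀ k, ∃ a : ℚ, ∀ ℓ, (M ℓ).charpolyRev.coeff k = (a : Ω ℓ) := by
    intro k
    induction k using Nat.strong_induction_on with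
    | _ k ih =>
      rcases k with _ | k
      · refine ⟨1, fun ℓ => ?_⟩
        rw [coeff_zero_eq_eval_zero, Matrix.eval_charpolyRev, Rat.cast_one]
      · choose! a ha using ih
        refine ⟨(- ∑ p ∈ Finset.HasAntidiagonal.antidiagonal k, a p.1 * t (p.2 + 1)) / (k + 1),
          fun ℓ => ?_⟩
        have hk : ((k : Ω ℓ) + 1) ≠ 0 := by exact_mod_cast Nat.succ_ne_zero k
        have h1 := Pool.Agent.TH658.Eq.newton (M ℓ) k
        rw [Rat.cast_div, eq_div_iff (by push_cast; exact hk)]
        push_cast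
        rw [h1]
        congr 1
        refine Finset.sum_congr rfl fun p hp => ?_
        have h3 := (Finset.HasAntidiagonal.mem_antidiagonal.mp hp)
        rw [ha p.1 (by omega), hM2]
  choose a ha using hc
  have hcc : ∀ ℓ k, (M ℓ).charpoly.coeff k = ((if k ≤ n then a (n - k) else 0 : ℚ) : Ω ℓ) := by
    intro ℓ k
    have hd : (M ℓ).charpoly.natDegree = n := by
      rw [Matrix.charpoly_natDegree_eq_dim, Fintype.card_fin]
    split_ifs with hk
    · rw [← ha, ← Matrix.reverse_charpoly, coeff_reverse, hd]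
      congr 1
      rw [revAt_le (by omega)]
      omega
    · rw [Rat.cast_zero, coeff_eq_zero_of_natDegree_lt (by omega)]
  set C : ℚ[X] := ∑ k ∈ Finset.range (n + 1), monomial k (a (n - k)) with hC
  have hCM : ∀ ℓ, (A ℓ).charpoly = C.map (algebraMap ℚ (Ω ℓ)) := by
    intro ℓ
    rw [hM1]
    ext k
    rw [hcc, coeff_map, hC, finsetSum_coeff]
    simp_rw [coeff_monomial]
    rw [Finset.sum_ite_eq' (Finset.range (n + 1)) k fun j => a (n - j)]
    simp only [Finset.mem_range, Nat.lt_succ_iff]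
    split_ifs <;> simp
  refine ⟨C, ?_, hCM⟩
  have h1 := (A ℓ₁).charpoly_monic
  rw [hCM ℓ₁] at h1
  exact Polynomial.monic_of_injective (algebraMap ℚ (Ω ℓ₁)).injective h1

end newton

section rank

variable {K V : Type} [Field K] [CharZero K] [IsAlgClosed K] [AddCommGroup V] [Module K V]
  [FiniteDimensional K V]

omit [CharZero K] [IsAlgClosed K] in
/-- The multiplicity of a root of the characteristic polynomial on a stable subspace. -/
lemma mult_restrict {Φ : Module.End K V} {p : Submodule K V} (hp : ∀ x ∈ p, Φ x ∈ p) (α : K) :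
    (LinearMap.restrict Φ hp).charpoly.rootMultiplicity α =
      finrank K (Φ.maxGenEigenspace α ⊓ p : Submodule K V) := by
  rw [← LinearMap.finrank_maxGenEigenspace_eq]
  have h1 : End.maxGenEigenspace (LinearMap.restrict Φ hp) α =
      (Φ.maxGenEigenspace α).comap p.subtype := by
    rw [End.maxGenEigenspace, End.genEigenspace_restrict]
  rw [h1, ← Submodule.finrank_map_subtype_eq, Submodule.map_comap_subtype, inf_comm]

omit [CharZero K] [IsAlgClosed K] [FiniteDimensional K V] in
lemma N_pow_rel {Φ N : Module.End K V} {q : ℕ} (rel : N * Φ = (q : K) • (Φ * N))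
    (hq0 : (q : K) ≠ 0) (α : K) (j : ℕ) :
    ((q : K) ^ j) • ((Φ - (α / q) • (1 : Module.End K V)) ^ j * N) =
      N * (Φ - α • (1 : Module.End K V)) ^ j := by
  have h1 : (q : K) • ((Φ - (α / q) • (1 : Module.End K V)) * N) =
      N * (Φ - α • (1 : Module.End K V)) := by
    rw [sub_mul, mul_sub, rel, smul_sub, smul_mul_assoc, one_mul, mul_smul_comm, mul_one,
      smul_smul, mul_div_cancel₀ _ hq0]
  induction j with
  | zero => rw [pow_zero, pow_zero, pow_zero, one_smul, one_mul, mul_one]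
  | succ j ih =>
    rw [pow_succ (Φ - α • (1 : Module.End K V)), ← mul_assoc, ← ih, smul_mul_assoc, mul_assoc,
      ← h1, mul_smul_comm, smul_smul, pow_succ, pow_succ, mul_assoc]

omit [IsAlgClosed K] [FiniteDimensional K V] in
lemma N_mem {Φ N : Module.End K V} {q : ℕ} (hq : 0 < q) (rel : N * Φ = (q : K) • (Φ * N)) {α : K}
    {x : V} (hx : x ∈ Φ.maxGenEigenspace α) : N x ∈ Φ.maxGenEigenspace (α / q) := by
  have hq0 : (q : K) ≠ 0 := Nat.cast_ne_zero.2 hq.ne'
  rw [End.mem_maxGenEigenspace] at hx ⊢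
  obtain ⟨k, hk⟩ := hx
  refine ⟨k, ?_⟩
  have h3 := congrArg (fun f => f x) (N_pow_rel rel hq0 α k)
  change ((q : K) ^ k) • ((Φ - (α / q) • (1 : Module.End K V)) ^ k) (N x) =
    N (((Φ - α • (1 : Module.End K V)) ^ k) x) at h3
  rw [hk, map_zero] at h3
  exact (smul_eq_zero.1 h3).resolve_left (pow_ne_zero _ hq0)

/-- The characteristic polynomial on the kernel of `N`, if `N` has maximal rank. -/
theorem factor_of_rank {Φ N : Module.End K V} {q : ℕ} (hq : 0 < q)
    (rel : N * Φ = (q : K) • (Φ * N)) {p J : Submodule K V} (hp : ∀ x ∈ p, Φ x ∈ p)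
    (hN : ∀ x ∈ p, N x ∈ p) (hJ : ∀ x, x ∈ J ↔ N x = 0 ∧ x ∈ p) (hJs : ∀ x ∈ J, Φ x ∈ J)
    (mr : ∀ α, (∀ x ∈ Φ.maxGenEigenspace α, x ∈ p → N x = 0 → x = 0) ∨
      ∀ y ∈ Φ.maxGenEigenspace (α / q), y ∈ p → ∃ x ∈ Φ.maxGenEigenspace α, x ∈ p ∧ N x = y)
    {C : ℚ[X]} (hC : C.Monic) (hΦ : (LinearMap.restrict Φ hp).charpoly = C.map (algebraMap ℚ K)) :
    (LinearMap.restrict Φ hJs).charpoly =
      (C / Pool.Agent.U865.EF.common C q).map (algebraMap ℚ K) := by
  classical
  set D := Pool.Agent.U865.EF.common C q with hD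
  have hmon : (C / D).Monic := Pool.Agent.U865.EF.quot_monic hC q
  have hmul : ∀ α : K, (LinearMap.restrict Φ hJs).charpoly.rootMultiplicity α =
      ((C / D).map (algebraMap ℚ K)).rootMultiplicity α := by
    intro α
    have h1 : (C.map (algebraMap ℚ K)).rootMultiplicity α =
        (D.map (algebraMap ℚ K)).rootMultiplicity α +
          ((C / D).map (algebraMap ℚ K)).rootMultiplicity α := by
      have h2 := Pool.Agent.U865.EF.quot_mul hC.ne_zero q
      conv_lhs => rw [← h2, Polynomial.map_mul]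
      refine Polynomial.rootMultiplicity_mul ?_
      rw [← Polynomial.map_mul, h2]
      exact (hC.map _).ne_zero
    rw [Pool.Agent.U865.EF.mult_common hC.ne_zero hq.ne', ← hΦ, mult_restrict hp,
      mult_restrict hp] at h1
    rw [mult_restrict hJs]
    -- the map `N` between the eigenspaces
    set E : Submodule K V := Φ.maxGenEigenspace α ⊓ p with hE
    set E' : Submodule K V := Φ.maxGenEigenspace (α / q) ⊓ p with hE'
    have hmap : ∀ x ∈ E, N x ∈ E' := fun x hx => ⟨N_mem hq rel hx.1, hN x hx.2⟩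
    set n : E →ₗ[K] E' := N.restrict hmap with hn
    have h3 := LinearMap.finrank_range_add_finrank_ker n
    have h4 : finrank K (LinearMap.ker n) =
        finrank K (Φ.maxGenEigenspace α ⊓ J : Submodule K V) := by
      have h7 : (LinearMap.ker n).map E.subtype = Φ.maxGenEigenspace α ⊓ J := ?_
      · rw [← Submodule.finrank_map_subtype_eq, h7]
      ext x
      simp only [Submodule.mem_map, LinearMap.mem_ker, Submodule.mem_inf]
      constructor
      · rintro ⟨y, hy, rfl⟩
        have h5 : N (y : V) = 0 := congrArg Subtype.val hy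
        exact ⟨y.2.1, (hJ _).2 ⟨h5, y.2.2⟩⟩
      · rintro ⟨hx, hxJ⟩
        obtain ⟨h5, h6⟩ := (hJ x).1 hxJ
        exact ⟨⟨x, hx, h6⟩, Subtype.ext h5, rfl⟩
    rw [← h4]
    rcases mr α with h | h
    · have h5 : LinearMap.ker n = ⊥ := by
        rw [LinearMap.ker_eq_bot']
        intro x hx
        exact Subtype.ext (h x x.2.1 x.2.2 (congrArg Subtype.val hx))
      have h6 : finrank K E ≤ finrank K E' :=
        LinearMap.finrank_le_finrank_of_injective (LinearMap.ker_eq_bot.1 h5)
      rw [h5, finrank_bot]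
      rw [min_eq_left h6] at h1
      omega
    · have h5 : LinearMap.range n = ⊤ := by
        rw [LinearMap.range_eq_top]
        intro y
        obtain ⟨x, hx, hxp, hxy⟩ := h y y.2.1 y.2.2
        exact ⟨⟨x, hx, hxp⟩, Subtype.ext hxy⟩
      rw [h5, finrank_top] at h3
      have h6 : finrank K E' ≤ finrank K E := by omega
      rw [min_eq_right h6] at h1
      omega
  have h1 : (LinearMap.restrict Φ hJs).charpoly.roots =
      ((C / D).map (algebraMap ℚ K)).roots := by
    ext α
    rw [count_roots, count_roots, hmul]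
  rw [(IsAlgClosed.splits _).eq_prod_roots_of_monic (LinearMap.charpoly_monic _), h1]
  exact ((IsAlgClosed.splits _).eq_prod_roots_of_monic (hmon.map _)).symm

end rank

section average

variable {K V W : Type} [Field K] [CharZero K] [AddCommGroup V] [Module K V]
  [FiniteDimensional K V] [Group W] (I : Subgroup W) [Finite I] (r : Representation K W V)

/-- The invariants of `I`. -/
def fix : Submodule K V where
  carrier := {x | ∀ u ∈ I, r u x = x}
  add_mem' := by
    intro x y hx hy u hu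
    rw [map_add, hx u hu, hy u hu]
  zero_mem' := fun u _ => map_zero _
  smul_mem' := by
    intro c x hx u hu
    rw [map_smul, hx u hu]

/-- The projection onto the invariants of `I`. -/
noncomputable def avg : Module.End K V :=
  letI := Fintype.ofFinite I
  (Fintype.card I : K)⁻¹ • ∑ u : I, r u

lemma avg_mem (x : V) : avg I r x ∈ fix I r := by
  letI := Fintype.ofFinite I
  intro v hv
  have h : (∑ u : I, r v * r u) = ∑ u : I, r u := by
    refine Fintype.sum_equiv (Equiv.mulLeft (⟨v, hv⟩ : I)) _ _ fun u => ?_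
    rw [← map_mul]
    rfl
  change r v (((Fintype.card I : K)⁻¹ • ∑ u : I, r u) x) = ((Fintype.card I : K)⁻¹ • ∑ u : I, r u) x
  rw [LinearMap.smul_apply, map_smul]
  congr 1
  have h1 := congrArg (fun f => f x) h
  change (∑ u : I, r v * r u) x = _ at h1
  rw [← Finset.mul_sum] at h1
  exact h1

lemma avg_fix {x : V} (hx : x ∈ fix I r) : avg I r x = x := by
  letI := Fintype.ofFinite I
  have hc : (Fintype.card I : K) ≠ 0 := Nat.cast_ne_zero.2 Fintype.card_ne_zero
  change ((Fintype.card I : K)⁻¹ • ∑ u : I, r u) x = x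
  rw [LinearMap.smul_apply, LinearMap.sum_apply,
    Finset.sum_congr rfl fun (u : I) _ => hx u u.2,
    Finset.sum_const, Finset.card_univ, ← Nat.cast_smul_eq_nsmul K, smul_smul, inv_mul_cancel₀ hc,
    one_smul]

lemma avg_comm {N : Module.End K V} (h : ∀ u ∈ I, Commute (r u) N) : Commute (avg I r) N := by
  letI := Fintype.ofFinite I
  exact (Commute.sum_left _ _ _ fun (u : I) _ => h u u.2).smul_left _

lemma avg_comm_frob [I.Normal] (w : W) : Commute (avg I r) (r w) := by
  letI := Fintype.ofFinite I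
  have h : (∑ u : I, r u * r w) = ∑ u : I, r w * r u := by
    refine Fintype.sum_equiv (MulAut.conjNormal (H := I) w⁻¹).toEquiv _ _ fun u => ?_
    rw [← map_mul, ← map_mul]
    congr 1
    change (u : W) * w = w * ((MulAut.conjNormal (H := I) w⁻¹ u : I) : W)
    rw [MulAut.conjNormal_apply]
    group
  have h1 : Commute (∑ u : I, r u) (r w) := by
    change (∑ u : I, r u) * r w = r w * ∑ u : I, r u
    rw [Finset.sum_mul, Finset.mul_sum, h]
  exact h1.smul_left _

lemma fix_stable [I.Normal] (w : W) : ∀ x ∈ fix I r, r w x ∈ fix I r := by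
  intro x hx
  have h := congrArg (fun f => f x) (avg_comm_frob I r w).eq
  change avg I r (r w x) = r w (avg I r x) at h
  rw [avg_fix I r hx] at h
  rw [← h]
  exact avg_mem I r _

/-- The traces of the powers of `Φ` on the invariants of `I`. -/
theorem trace_fix [I.Normal] (Φ : W) (k : ℕ) (a : W → ℚ)
    (ha : ∀ w, LinearMap.trace K V (r w) = (a w : K)) :
    LinearMap.trace K (fix I r) (LinearMap.restrict (r Φ) (fix_stable I r Φ) ^ k) =
      (((Nat.card I : ℚ)⁻¹ * ∑ᶠ u : I, a (Φ ^ k * u) : ℚ) : K) := by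
  letI := Fintype.ofFinite I
  have hm : ∀ x, (r (Φ ^ k) * avg I r) x ∈ fix I r := fun x =>
    fix_stable I r _ _ (avg_mem I r x)
  have h1 : LinearMap.restrict (r Φ) (fix_stable I r Φ) ^ k =
      LinearMap.restrict (r (Φ ^ k) * avg I r) (fun x _ => hm x) := by
    have h2 : ∀ x : fix I r, ((LinearMap.restrict (r Φ) (fix_stable I r Φ) ^ k) x : V) =
        r (Φ ^ k) x := by
      clear hm
      induction k with
      | zero => intro x; rw [pow_zero, pow_zero, map_one]; rfl
      | succ k ih =>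
        intro x
        rw [pow_succ' (LinearMap.restrict (r Φ) (fix_stable I r Φ)), pow_succ', map_mul]
        change r Φ (((LinearMap.restrict (r Φ) (fix_stable I r Φ) ^ k) x : fix I r) : V) = _
        rw [ih]
        rfl
    refine LinearMap.ext fun x => Subtype.ext ?_
    rw [h2]
    change r (Φ ^ k) x = r (Φ ^ k) (avg I r x)
    rw [avg_fix I r x.2]
  rw [h1, LinearMap.trace_restrict_eq_of_forall_mem _ _ hm]
  have h3 : r (Φ ^ k) * avg I r = (Fintype.card I : K)⁻¹ • ∑ u : I, r (Φ ^ k * u) := by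
    change r (Φ ^ k) * ((Fintype.card I : K)⁻¹ • ∑ u : I, r u) = _
    rw [mul_smul_comm, Finset.mul_sum]
    congr 1
    exact Finset.sum_congr rfl fun u _ => (map_mul r _ _).symm
  rw [h3, map_smul, map_sum, Finset.sum_congr rfl fun u _ => ha _, finsum_eq_sum_of_fintype,
    Nat.card_eq_fintype_card]
  push_cast
  rfl

end average

end Pool.Agent.U434.LF
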