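import Pool.Agent.U434.KS.Defs

/-!
# Local factors of hyperkähler varieties: definitions
-/

set_option autoImplicit false

namespace Pool.Agent.U434.LF

open Module
open Pool.Agent.N184.HK Pool.Agent.U434.PA Pool.Agent.U434.HM Pool.Agent.U434.SS
open Pool.Agent.U434.KS

/-- The coefficients: `L` is the set of the prime numbers `ℓ ≠ p`, and `Ω ℓ` is an algebraically closed
topological field of characteristic zero which contains `ℚ_ℓ`, for example an algebraic closure. -/
structure Coefficients where
  L : Type
  Ω : L → Type
  [field : ∀ ℓ, Field (Ω ℓ)]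
  [char : ∀ ℓ, CharZero (Ω ℓ)]
  [closed : ∀ ℓ, IsAlgClosed (Ω ℓ)]
  [top : ∀ ℓ, TopologicalSpace (Ω ℓ)]
  [ring : ∀ ℓ, IsTopologicalRing (Ω ℓ)]
  [t2 : ∀ ℓ, T2Space (Ω ℓ)]

attribute [instance] Coefficients.field Coefficients.char Coefficients.closed Coefficients.top
  Coefficients.ring Coefficients.t2

/-- The trace of `r g`, the character of the representation `r`. -/
noncomputable def chr {K G V : Type} [Field K] [Group G] [AddCommGroup V] [Module K V]
    (r : Representation K G V) (g : G) : K :=
  LinearMap.trace K V (r g)

/-- The isomorphism `e` transforms the operator `A` into the operator `A'`. -/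
def Transforms {K V V' : Type} [Field K] [AddCommGroup V] [Module K V] [AddCommGroup V']
    [Module K V'] (e : V ≃ₗ[K] V') (A : Module.End K V) (A' : Module.End K V') : Prop :=
  ∀ x, e (A x) = A' (e x)

variable {C : Coefficients}

/-- The elements `f ℓ` of the fields `Ω ℓ` are one and the same rational number. -/
def Indep (f : ∀ ℓ, C.Ω ℓ) : Prop := ∃ a : ℚ, ∀ ℓ, f ℓ = (a : C.Ω ℓ)

/-- The polynomials `f ℓ` over the fields `Ω ℓ` are one and the same polynomial with rational
coefficients. -/
def IndepPoly (f : ∀ ℓ, Polynomial (C.Ω ℓ)) : Prop :=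
  ∃ P : Polynomial ℚ, ∀ ℓ, f ℓ = P.map (algebraMap ℚ (C.Ω ℓ))

variable (C) in
/-- The absolute Galois group `G` of a number field `K`; the set `P` of the finite places of `K`, the
norm of a place `s`, the statement `above s ℓ` that `s` lies above `ℓ`, and the set `Frob s` of the
elements of the decomposition groups at `s` which give the geometric Frobenius; they are dense, even
if finitely many places and the places above `ℓ` and `ℓ'` are left out (Chebotarev). For `ℓ` in `L` the
inverse `n ℓ` of the cyclotomic character. -/
structure Base where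
  G : Type
  [group : Group G]
  [topology : TopologicalSpace G]
  [topGroup : IsTopologicalGroup G]
  P : Type
  norm : P → ℕ
  above : P → C.L → Prop
  Frob : P → Set G
  dense : ∀ (F : Finset P) (ℓ ℓ' : C.L),
    Dense {σ | ∃ s, s ∉ F ∧ ¬ above s ℓ ∧ ¬ above s ℓ' ∧ σ ∈ Frob s}
  n : ∀ ℓ, G → C.Ω ℓ
  n_ne : ∀ ℓ g, n ℓ g ≠ 0
  n_cont : ∀ ℓ, Continuous (n ℓ)
  n_frob : ∀ s ℓ, ¬ above s ℓ → ∀ σ ∈ Frob s, n ℓ σ = norm s

attribute [instance] Base.group Base.topology Base.topGroup

/-- The cohomology groups `V ℓ = H^i(X, Ω ℓ)` of a smooth projective variety `X` over `K`, for one `i` and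
all `ℓ` in `L`, with the continuous action `ρ` of the Galois group; the finite set `bad` of the places of
bad reduction. For the other places `s` and the `ℓ` which are not below `s`, the traces `tr s k` of the
`k`-th powers of the geometric Frobenius elements are rational numbers which do not depend on `ℓ`
(Deligne). -/
structure Compatible (B : Base C) where
  V : C.L → Type
  [grp : ∀ ℓ, AddCommGroup (V ℓ)]
  [mod : ∀ ℓ, Module (C.Ω ℓ) (V ℓ)]
  [fin : ∀ ℓ, FiniteDimensional (C.Ω ℓ) (V ℓ)]
  ρ : ∀ ℓ, Representation (C.Ω ℓ) B.G (V ℓ)
  cont : ∀ ℓ, Continuous (chr (ρ ℓ))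
  bad : Finset B.P
  tr : B.P → ℕ → ℚ
  frob : ∀ s, s ∉ bad → ∀ ℓ, ¬ B.above s ℓ → ∀ σ ∈ B.Frob s, ∀ k, chr (ρ ℓ) (σ ^ k) = tr s k

attribute [instance] Compatible.grp Compatible.mod Compatible.fin

/-- The trace of the element `g` of the Galois group on `V ℓ`. -/
noncomputable def Compatible.t {B : Base C} (R : Compatible B) (g : B.G) (ℓ : C.L) : C.Ω ℓ :=
  chr (R.ρ ℓ) g

/-- The value `n(g)` of the inverse of the cyclotomic character, for `k = 0`, and the traces of the
powers `g ^ k` on `V ℓ`, for `k > 0`. -/
noncomputable def Compatible.x {B : Base C} (R : Compatible B) (g : B.G) (ℓ : C.L) (k : ℕ) : C.Ω ℓ :=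
  if k = 0 then B.n ℓ g else R.t (g ^ k) ℓ

/-- The value `n(g)` and the traces of all powers of `g` on `V ℓ` are rational numbers which do not
depend on `ℓ` (so the characteristic polynomial of `g` is rational and independent of `ℓ`). -/
def Compatible.Rational {B : Base C} (R : Compatible B) (g : B.G) : Prop :=
  ∀ k, Indep fun ℓ => R.x g ℓ k

section

variable {K H : Type} [Field K] [AddCommGroup H] [Module K H]

/-- The projection of `H` onto `N` along the complement `M`. -/
noncomputable def proj {N M : Submodule K H} (h : IsCompl N M) : Module.End K H :=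
  N.subtype ∘ₗ N.projectionOnto M h

/-- The operator `B` commutes with the operators in `S`, is zero on `N` and has values in `M`. -/
structure Inner (S : Set (Module.End K H)) (N M : Submodule K H) (B : Module.End K H) : Prop where
  comm : ∀ g ∈ S, Commute g B
  zero : ∀ x ∈ N, B x = 0
  mem : ∀ x, B x ∈ M

end

section

variable {Ω : Type} [Field Ω] [CharZero Ω] [IsAlgClosed Ω] [TopologicalSpace Ω] (Z : HKFamily Ω)
  {j : ℕ}

/-- The trace of `g B` on `H^j`. -/
noncomputable def tz (g : Z.G) (B : Module.End Ω (Z.H.H j)) : Ω :=
  trm (en ((Z.F g).φ j)) B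

variable {Z}

/-- The trace of `g` on the first space of the pair. -/
noncomputable def tX (P : Pair Z j) (g : Z.G) : Ω := tz Z g (proj P.compl)

/-- The operator `B` on the second space of the pair commutes with `so(H²)`. -/
def IsInner (P : Pair Z j) (B : Module.End Ω (Z.H.H j)) : Prop := Inner (soOps Z j) P.X P.T B

/-- There is an embedding of the first space into the second one which commutes with `so(H²)`. -/
def Emb (P : Pair Z j) : Prop := Embeds (soOps Z j) P.X P.T

end

/-- The data of a projective hyperkähler variety `X` over a number field `K`, of any deformation type: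
the cohomology groups `H i = H^i(X)`, and for one prime number `ℓ₀` in `L` the spaces
`Z.H.H (i + 2 m) = X_i ⊕ T_i` (the pairs `P i`) for `i ≤ b = 2 dim X`, where `X_i = H^i(X, Ω ℓ₀)(-m)` and, for
even `i`, `T_i` is a direct sum of twisted tensor powers `H²(X, Ω ℓ₀)^(⊗ k)(-c)` with `k + c = i / 2 + m`
and `c ≥ 0` (for odd `i` the space `T_i` may be zero, if we do not want to use `OddPart`); `Z.H.H 2` is `H²(X, Ω ℓ₀)`, and the spaces `Z.H.H j` for other `j` are zero. The Galois group `Z.G`
of the maximal extension of `K` which is unramified outside of a finite set (a quotient of `G`, by the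
homomorphism `j`), the Lie algebra `so(H²)` (Verbitsky, Looijenga-Lunts) and, at almost all places of `K`,
the crystalline Frobenius act on these spaces. So `Z` is a family as in `PA.HKFamily`, with `Arithmetic` as
in `SS.Arithmetic`: `H¹_g(K, ℚ_ℓ) = 0`.

The fields `embeds` and `weyl` are theorems of Weyl on the classical groups. On the cohomology of even
degree the action of `so(H²)` comes from an action of `SO(H²)` (Verbitsky), so `X_i` can be embedded in a
sum of tensor powers of `H²`, if `m` is large. And the trace of `g B` on `T_i`, where `B` is an operator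
on `T_i` which commutes with `so(H²)`, is for all `g` in the Galois group a polynomial in `n(g)` and in the
traces of the powers of `g` on `H²(X)` (the first fundamental theorem for `SO(H²)`; note that the class of
an ample line bundle is an anisotropic vector in `H²(X)` which is multiplied by `n(g)`). -/
structure Hyperkaehler (B : Base C) where
  H : ℕ → Compatible B
  ℓ₀ : C.L
  Z : HKFamily (C.Ω ℓ₀)
  j : B.G → Z.G
  j_mul : ∀ g h, j (g * h) = j g * j h
  j_cont : Continuous j
  arith : Arithmetic Z
  b : ℕ
  m : ℕ
  two_le : 2 ≤ m
  le : b + 2 * m ≤ Z.d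
  P : ∀ i, Pair Z (i + 2 * m)
  embeds : ∀ i ≤ b, Even i → Emb (P i)
  twist : ∀ i ≤ b, ∀ g, tX (P i) (j g) = B.n ℓ₀ g ^ m * (H i).t g ℓ₀
  weyl : ∀ i ≤ b, Even i → ∀ A, IsInner (P i) A → ∃ F : MvPolynomial ℕ (C.Ω ℓ₀), ∀ g,
    tz Z (j g) A = MvPolynomial.eval ((H 2).x g ℓ₀) F

/-- The data for odd `i ≤ b`. We assume that `K` is so large that the Kuga-Satake variety `KS(X)`, whose
`H¹(KS(X), Ω ℓ)` is the even Clifford algebra of `H²(X)`, is defined over `K`. The data are the cohomology
`A = H¹(KS(X))`; the spaces `T_i` of the pairs `P i` are now direct sums of spaces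
`H¹(KS(X))^(⊗ a) ⊗ H²(X)^(⊗ k)(-c)` with `a + 2 k + 2 c = i + 2 m`. Again `X_i` can be embedded in `T_i`, since the
action of `so(H²)` comes from an action of the spin group; and the trace of `g A` on `T_i` is, up to a power
of `n(g)`, a polynomial in `n(g)` and in the traces of the powers of `g` on `H²(X)` and on `H¹(KS(X))` (the
representation ring of the spin group is generated by the exterior powers of the standard
representation and the spin representations; as the class of an ample line bundle is fixed, up to
`n(g)`, the two spin representations need not be distinguished if `dim H²(X)` is even). -/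
structure OddPart {B : Base C} (X : Hyperkaehler B) where
  A : Compatible B
  embeds : ∀ i ≤ X.b, Odd i → Emb (X.P i)
  weyl : ∀ i ≤ X.b, Odd i → ∀ E, IsInner (X.P i) E →
    ∃ (M : ℕ) (F : MvPolynomial (ℕ ⊕ ℕ) (C.Ω X.ℓ₀)), ∀ g,
      B.n X.ℓ₀ g ^ M * tz X.Z (X.j g) E =
        MvPolynomial.eval (Sum.elim ((X.H 2).x g X.ℓ₀) (A.x g X.ℓ₀)) F

section

variable (K V : Type) [Field K] [AddCommGroup V] [Module K V] {W : Type} [Group W]
  (I : Subgroup W) (Φ : W) (q : ℕ)

/-- A Weil-Deligne representation: a representation `r` of the group `W` and an operator `N` (the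
monodromy) which commutes with the elements of the inertia group `I`, with `N Φ = q Φ N` for the
geometric Frobenius `Φ`. -/
structure WeilDeligne where
  r : Representation K W V
  N : Module.End K V
  comm : ∀ u ∈ I, Commute (r u) N
  rel : N * r Φ = (q : K) • (r Φ * N)

variable {K V I Φ q} (D : WeilDeligne K V I Φ q)

/-- The subspace of the invariants of the inertia group: `N x = 0`, and `x` is fixed by `I`. -/
def WeilDeligne.inv : Submodule K V where
  carrier := {x | D.N x = 0 ∧ ∀ u ∈ I, D.r u x = x}
  add_mem' := by
    rintro x y ⟨hx, hx'⟩ ⟨hy, hy'⟩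
    exact ⟨by rw [map_add, hx, hy, add_zero], fun u hu => by rw [map_add, hx' u hu, hy' u hu]⟩
  zero_mem' := ⟨map_zero _, fun u _ => map_zero _⟩
  smul_mem' := by
    rintro c x ⟨hx, hx'⟩
    exact ⟨by rw [map_smul, hx, smul_zero], fun u hu => by rw [map_smul, hx' u hu]⟩

lemma WeilDeligne.inv_stable [I.Normal] : ∀ x ∈ D.inv, D.r Φ x ∈ D.inv := by
  rintro x ⟨hx, hx'⟩
  refine ⟨?_, fun u hu => ?_⟩
  · have h := congrArg (fun f => f x) D.rel
    change D.N (D.r Φ x) = (q : K) • D.r Φ (D.N x) at h
    rw [h, hx, map_zero, smul_zero]
  · have h1 : u * Φ = Φ * (Φ⁻¹ * u * Φ) := by group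
    have h2 : Φ⁻¹ * u * Φ ∈ I := by
      have := ‹I.Normal›.conj_mem u hu Φ⁻¹
      rwa [inv_inv] at this
    have h3 : D.r u (D.r Φ x) = D.r (u * Φ) x := by
      rw [map_mul]
      rfl
    rw [h3, h1, map_mul]
    change D.r Φ (D.r _ x) = _
    rw [hx' _ h2]

/-- The operator of the geometric Frobenius. -/
def WeilDeligne.frob : Module.End K V := D.r Φ

/-- The local factor `det (1 - T Φ)` on the invariants of the inertia group. -/
noncomputable def WeilDeligne.factor [FiniteDimensional K V] [I.Normal] : Polynomial K :=
  ((D.r Φ).restrict D.inv_stable).charpoly.reverse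

/-- The Weil-Deligne representation `D` is the one of `H^i(Y)` for a hyperkähler variety `Y` over a number
field `F` with the local monodromy `M` at the place `u` of norm `q`, as in the library `N184.HK`: there is
an isomorphism `e` with `H^i(Y)` which is compatible with `Φ` and `N`. So it satisfies the
weight-monodromy conjecture (this is the theorem of that library). -/
structure IsHK [CharZero K] [TopologicalSpace K] (i : ℕ) where
  F : Type
  [field : Field F]
  [numberField : NumberField F]
  u : IsDedekindDomain.HeightOneSpectrum (NumberField.RingOfIntegers F)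
  norm : Ideal.absNorm u.asIdeal = q
  Y : HKVariety F K
  le : i ≤ Y.d
  M : LocalMonodromy Y u
  e : Y.E.X.H i ≃ₗ[K] V
  frob : Transforms e (Y.E.Φ M.σ i) D.frob
  mono : Transforms e (M.data.N i) D.N

attribute [instance] IsHK.field IsHK.numberField

end

variable (C) in
/-- A place `v` of `K` above `p`: the quotient `W` of the Weil group of `K_v` by a normal open subgroup of
the inertia group which acts unipotently on the considered `H^i(X)` for all `ℓ`, the image `I` of the
inertia group in `W`, a geometric Frobenius `Φ` in `W`; the number `q` of elements of the residue field; for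
`w` in `W` an element `lift w` of the Galois group with the image `w`. -/
structure Place (B : Base C) where
  W : Type
  [group : Group W]
  I : Subgroup W
  [normal : I.Normal]
  [finite : Finite I]
  Φ : W
  q : ℕ
  lift : W → B.G

attribute [instance] Place.group Place.normal Place.finite

/-- The Weil-Deligne representations at the place `v` which belong to the representations `R`, for
all `ℓ`. The traces of the elements of the Weil group can be computed by them. -/
structure Localisation {B : Base C} (v : Place C B) (R : Compatible B) where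
  D : ∀ ℓ, WeilDeligne (C.Ω ℓ) (R.V ℓ) v.I v.Φ v.q
  trace : ∀ ℓ w, chr (D ℓ).r w = R.t (v.lift w) ℓ

/-- The Weil-Deligne representations satisfy the weight-monodromy conjecture in weight `i`, as they are
the ones of `H^i` of a hyperkähler variety (see `IsHK`). -/
def Localisation.Pure {B : Base C} {v : Place C B} {R : Compatible B} (E : Localisation v R)
    (i : ℕ) : Prop :=
  ∀ ℓ, Nonempty (IsHK (E.D ℓ) i)

/-- The local factor for the prime number `ℓ`. -/
noncomputable def Localisation.factor {B : Base C} {v : Place C B} {R : Compatible B}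
    (E : Localisation v R) (ℓ : C.L) : Polynomial (C.Ω ℓ) :=
  (E.D ℓ).factor

end Pool.Agent.U434.LF
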