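import Pool.Agent.U434.LF.Defs
import Pool.Agent.U434.LF.Alg
import Pool.Agent.U434.KS.Main
import Pool.Agent.N184.HK.W7
import Pool.Agent.N184.HK.P_TOM

/-!
# Local factors of hyperkähler varieties: proofs
-/

set_option autoImplicit false
set_option linter.unusedSectionVars false

namespace Pool.Agent.U434.LF

open Module
open Pool.Agent.N184.HK Pool.Agent.U434.PA Pool.Agent.U434.HM Pool.Agent.U434.SS
open Pool.Agent.U434.KS

/-- A rational retraction. -/
lemma exists_retract (K : Type) [Field K] [CharZero K] :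
    ∃ π : K →ₗ[ℚ] ℚ, ∀ a : ℚ, π (a : K) = a := by
  obtain ⟨π, hπ⟩ := LinearMap.exists_leftInverse_of_injective (Algebra.linearMap ℚ K)
    (LinearMap.ker_eq_bot.2 (algebraMap ℚ K).injective)
  refine ⟨π, fun a => ?_⟩
  have h := congrArg (fun f => f a) hπ
  change π (algebraMap ℚ K a) = a at h
  rwa [eq_ratCast] at h

section transfer

variable {C : Coefficients} {G : Type} [Group G] [TopologicalSpace G] [IsTopologicalGroup G]

/-- The values of the functions `f ℓ` at `σ` are the same rational number for `ℓ₀` and `ℓ`. -/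
def RatAt (f : ∀ ℓ, G → C.Ω ℓ) (σ : G) (ℓ₀ ℓ : C.L) : Prop :=
  ∃ a : ℚ, f ℓ₀ σ = (a : C.Ω ℓ₀) ∧ f ℓ σ = (a : C.Ω ℓ)

/-- **Transfer.** If the function `t` is on a coset of an open subgroup a polynomial in the functions
`x k`, for one prime number `ℓ₀`, then it is rational and independent of `ℓ` at the elements of the
coset for which this holds for the functions `x k`. -/
theorem transfer {κ : Type} (x : κ → ∀ ℓ, G → C.Ω ℓ) (hx : ∀ k ℓ, Continuous (x k ℓ))
    (n t : ∀ ℓ, G → C.Ω ℓ) (hn : ∀ ℓ, Continuous (n ℓ)) (ht : ∀ ℓ, Continuous (t ℓ)) (ℓ₀ : C.L)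
    (hd : ∀ ℓ, Dense {σ | (∀ k, RatAt (x k) σ ℓ₀ ℓ) ∧ RatAt n σ ℓ₀ ℓ ∧ RatAt t σ ℓ₀ ℓ})
    (m : ℕ) (O : Set G) (hO : IsOpen O) (w : G) (hwO : w ∈ O) (F : MvPolynomial κ (C.Ω ℓ₀))
    (hF : ∀ g ∈ O, n ℓ₀ g ^ m * t ℓ₀ g = MvPolynomial.eval (fun k => x k ℓ₀ g) F)
    (hw : ∀ k, Indep fun ℓ => x k ℓ w) (hn0 : n ℓ₀ w ≠ 0) (hnw : Indep fun ℓ => n ℓ w) :
    Indep fun ℓ => t ℓ w := by
  classical
  obtain ⟨π, hπ⟩ := exists_retract (C.Ω ℓ₀)
  choose a ha using hw
  replace ha : ∀ k ℓ, x k ℓ w = (a k : C.Ω ℓ) := ha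
  obtain ⟨b, hb⟩ := hnw
  replace hb : ∀ ℓ, n ℓ w = (b : C.Ω ℓ) := hb
  set c : (κ →₀ ℕ) → ℚ := fun d => π (MvPolynomial.coeff d F) with hc
  have key : ∀ ℓ, n ℓ w ^ m * t ℓ w =
      ∑ d ∈ F.support, (c d : C.Ω ℓ) * ∏ k ∈ d.support, x k ℓ w ^ d k := by
    intro ℓ
    set T : Set G := {g | n ℓ g ^ m * t ℓ g =
      ∑ d ∈ F.support, (c d : C.Ω ℓ) * ∏ k ∈ d.support, x k ℓ g ^ d k} with hT
    have hTc : IsClosed T := by
      refine isClosed_eq (((hn ℓ).pow m).mul (ht ℓ)) ?_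
      exact continuous_finsetSum _ fun d _ => continuous_const.mul
        (continuous_finsetProd _ fun k _ => (hx k ℓ).pow _)
    have hsub : O ∩
        {σ | (∀ k, RatAt (x k) σ ℓ₀ ℓ) ∧ RatAt n σ ℓ₀ ℓ ∧ RatAt t σ ℓ₀ ℓ} ⊆ T := by
      rintro σ ⟨hσU, hr, ⟨n₀, hn1, hn2⟩, ⟨t₀, ht1, ht2⟩⟩
      choose r hr1 hr2 using hr
      have h2 := hF σ hσU
      rw [MvPolynomial.eval_eq, hn1, ht1] at h2
      have h3 : n₀ ^ m * t₀ = ∑ d ∈ F.support, c d * ∏ k ∈ d.support, r k ^ d k := by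
        have h4 := congrArg π h2
        have h5 : ((n₀ : C.Ω ℓ₀) ^ m * (t₀ : C.Ω ℓ₀)) = ((n₀ ^ m * t₀ : ℚ) : C.Ω ℓ₀) := by
          push_cast; rfl
        rw [h5, hπ, map_sum] at h4
        rw [h4]
        refine Finset.sum_congr rfl fun d _ => ?_
        have h6 : MvPolynomial.coeff d F * ∏ k ∈ d.support, x k ℓ₀ σ ^ d k =
            (∏ k ∈ d.support, r k ^ d k) • MvPolynomial.coeff d F := by
          rw [Rat.smul_def, mul_comm]
          congr 1
          push_cast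
          exact Finset.prod_congr rfl fun k _ => by rw [hr1]
        rw [h6, map_smul, smul_eq_mul, mul_comm]
      change n ℓ σ ^ m * t ℓ σ = _
      rw [hn2, ht2]
      have h4 := congrArg (fun q : ℚ => (q : C.Ω ℓ)) h3
      push_cast at h4
      rw [h4]
      refine Finset.sum_congr rfl fun d _ => ?_
      congr 1
      exact Finset.prod_congr rfl fun k _ => by rw [hr2]
    have h1 := (hd ℓ).open_subset_closure_inter hO hwO
    exact (closure_minimal hsub hTc) h1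
  have hb0 : b ≠ 0 := by
    intro h
    rw [hb, h, Rat.cast_zero] at hn0
    exact hn0 rfl
  refine ⟨(∑ d ∈ F.support, c d * ∏ k ∈ d.support, a k ^ d k) / b ^ m, fun ℓ => ?_⟩
  have h1 := key ℓ
  have h2 : (b : C.Ω ℓ) ^ m ≠ 0 := pow_ne_zero _ (by exact_mod_cast hb0)
  rw [hb] at h1
  push_cast
  rw [eq_div_iff h2, mul_comm, h1]
  refine Finset.sum_congr rfl fun d _ => ?_
  congr 1
  exact Finset.prod_congr rfl fun k _ => by rw [ha k ℓ]

variable {B : Base C} (R : Compatible B)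

lemma t_cont (ℓ : C.L) (k : ℕ) : Continuous fun g => R.t (g ^ k) ℓ :=
  (R.cont ℓ).comp (continuous_pow k)

lemma t_cont' (ℓ : C.L) : Continuous fun g => R.t g ℓ := R.cont ℓ

lemma x_cont (ℓ : C.L) (k : ℕ) : Continuous fun g => R.x g ℓ k := by
  unfold Compatible.x
  split_ifs
  · exact B.n_cont ℓ
  · exact t_cont R ℓ k

variable {R}

lemma rat_tk {s : B.P} (hs : s ∉ R.bad) {ℓ ℓ' : C.L} (h : ¬ B.above s ℓ) (h' : ¬ B.above s ℓ')
    {σ : B.G} (hσ : σ ∈ B.Frob s) (k : ℕ) : RatAt (fun ℓ g => R.t (g ^ k) ℓ) σ ℓ ℓ' :=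
  ⟨R.tr s k, R.frob s hs ℓ h σ hσ k, R.frob s hs ℓ' h' σ hσ k⟩

lemma rat_t {s : B.P} (hs : s ∉ R.bad) {ℓ ℓ' : C.L} (h : ¬ B.above s ℓ) (h' : ¬ B.above s ℓ')
    {σ : B.G} (hσ : σ ∈ B.Frob s) : RatAt (fun ℓ g => R.t g ℓ) σ ℓ ℓ' := by
  have := rat_tk hs h h' hσ 1
  simp only [pow_one] at this
  exact this

lemma rat_n {s : B.P} {ℓ ℓ' : C.L} (h : ¬ B.above s ℓ) (h' : ¬ B.above s ℓ') {σ : B.G}
    (hσ : σ ∈ B.Frob s) : RatAt (fun ℓ g => B.n ℓ g) σ ℓ ℓ' :=
  ⟨B.norm s, (B.n_frob s ℓ h σ hσ).trans (Rat.cast_natCast _).symm,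
    (B.n_frob s ℓ' h' σ hσ).trans (Rat.cast_natCast _).symm⟩

lemma rat_x {s : B.P} (hs : s ∉ R.bad) {ℓ ℓ' : C.L} (h : ¬ B.above s ℓ) (h' : ¬ B.above s ℓ')
    {σ : B.G} (hσ : σ ∈ B.Frob s) (k : ℕ) : RatAt (fun ℓ g => R.x g ℓ k) σ ℓ ℓ' := by
  unfold Compatible.x
  split_ifs
  · exact rat_n h h' hσ
  · exact rat_tk hs h h' hσ k

end transfer

section coset

variable {Ω : Type} [Field Ω] [CharZero Ω] [IsAlgClosed Ω] [TopologicalSpace Ω]
  [IsTopologicalRing Ω] [T2Space Ω] {Z : HKFamily Ω}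

lemma cen_le_com {j : ℕ} {B : Module.End Ω (Z.H.H j)} (h : B ∈ cen Z.H j) : B ∈ com Z j := by
  rw [mem_com]
  exact fun A hA => h A (gal_skew hA)

lemma mem_cen_iff {j : ℕ} {B : Module.End Ω (Z.H.H j)} :
    B ∈ cen Z.H j ↔ ∀ g ∈ soOps Z j, Commute g B := by
  constructor
  · rintro h _ ⟨A, hA, rfl⟩
    exact h A hA
  · intro h A hA
    exact h _ ⟨A, hA, rfl⟩

/-- The trace formula for the elements of a coset. -/
theorem coset {j : ℕ} (P : Pair Z j) (he : Emb P) {U : Subgroup Z.G}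
    (hU : ∀ σ ∈ U, ∀ B ∈ com Z j, Commute (en ((Z.F σ).φ j)) B) (w : Z.G) :
    ∃ B, IsInner P B ∧ ∀ g, w⁻¹ * g ∈ U → tX P g = tz Z g B := by
  obtain ⟨X, T, hc, gX, gT, hX, hT⟩ := P
  obtain ⟨f, hf, hef⟩ := he
  obtain ⟨p, hp, hep⟩ := retraction hX hf hef
  set E := ext0 hc f with hE
  set E' := ext0 hc.symm p with hE'
  have hEc : E ∈ cen Z.H j := mem_cen_iff.2 ((equivar_iff hc hX hT f).1 hef)
  have hEc' : E' ∈ cen Z.H j := mem_cen_iff.2 ((equivar_iff hc.symm hT hX p).1 hep)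
  have hprod : E' * E = proj hc := by
    refine LinearMap.ext fun x => ?_
    change E' (E x) = ((X.projectionOnto T hc x : X) : Z.H.H j)
    have h1 : E x = ((f (X.projectionOnto T hc x) : T) : Z.H.H j) := rfl
    rw [h1, hE', ext0_left]
    have h2 := congrArg (fun g => g (X.projectionOnto T hc x)) hp
    exact congrArg Subtype.val h2
  set C := adE ((Z.F w).φ j) E' with hC
  have hCc : C ∈ cen Z.H j := cen_ad _ hEc'
  have hAC : en ((Z.F w).φ j) * E' = C * en ((Z.F w).φ j) := by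
    refine LinearMap.ext fun x => ?_
    change (Z.F w).φ j (E' x) = C ((Z.F w).φ j x)
    rw [hC, adE_apply]
  refine ⟨E * C, ⟨fun g hg => ?_, fun x hx => ?_, fun x => ?_⟩, fun g hg => ?_⟩
  · exact (mem_cen_iff.1 hEc g hg).mul_right (mem_cen_iff.1 hCc g hg)
  · change E (C x) = 0
    have h1 : C x = 0 := by
      -- `x = A_w y` with `y` in `X`
      have h2 : (Z.F w).φ j ((Z.F w⁻¹).φ j x) = x := by
        have h3 := Z.E.mul w w⁻¹ j
        have h4 := congrArg (fun e => e x) h3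
        rw [mul_inv_cancel] at h4
        change (Z.F 1).φ j x = (Z.F w).φ j ((Z.F w⁻¹).φ j x) at h4
        rw [← h4]
        have h5 := Z.E.mul 1 1 j
        rw [one_mul] at h5
        have h6 := congrArg (fun e => e x) h5
        change (Z.F 1).φ j x = (Z.F 1).φ j ((Z.F 1).φ j x) at h6
        exact ((Z.F 1).φ j).injective h6.symm
      rw [← h2, hC, adE_apply]
      have h7 : (Z.F w⁻¹).φ j x ∈ X := gX _ ⟨w⁻¹, Set.mem_univ _, rfl⟩ x hx
      rw [hE', ext0_right _ _ h7, map_zero]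
    rw [h1, map_zero]
  · change E (C x) ∈ T
    exact (f (X.projectionOnto T hc (C x))).2
  · change LinearMap.trace Ω (Z.H.H j) (en ((Z.F g).φ j) * proj hc) = _
    set u := w⁻¹ * g with hu
    have hgu : g = w * u := by rw [hu, mul_inv_cancel_left]
    have hmul : en ((Z.F g).φ j) = en ((Z.F w).φ j) * en ((Z.F u).φ j) := by
      rw [hgu]
      exact congrArg (fun e => en e) (Z.E.mul w u j)
    have hcomm := hU u hg E' (cen_le_com hEc')
    rw [← hprod]
    calc LinearMap.trace Ω (Z.H.H j) (en ((Z.F g).φ j) * (E' * E))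
        = LinearMap.trace Ω (Z.H.H j) (C * (en ((Z.F g).φ j) * E)) := by
          congr 1
          rw [hmul, mul_assoc, ← mul_assoc (en ((Z.F u).φ j)) E' E, hcomm.eq, ← mul_assoc,
            ← mul_assoc, hAC, mul_assoc, mul_assoc, mul_assoc]
      _ = LinearMap.trace Ω (Z.H.H j) (en ((Z.F g).φ j) * (E * C)) := by
          rw [LinearMap.trace_mul_comm, mul_assoc]

end coset

section main

variable {C : Coefficients} {B : Base C} (X : Hyperkaehler B)

lemma open_coset {U : Subgroup X.Z.G} (hU : IsOpen (U : Set X.Z.G)) (w : B.G) :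
    IsOpen {g : B.G | (X.j w)⁻¹ * X.j g ∈ U} ∧ w ∈ {g : B.G | (X.j w)⁻¹ * X.j g ∈ U} := by
  have h1 : X.j 1 = 1 := by
    have := X.j_mul 1 1
    rw [mul_one] at this
    exact (mul_eq_left.1 this.symm)
  have h2 : ∀ g, (X.j w)⁻¹ * X.j g = X.j (w⁻¹ * g) := by
    intro g
    rw [X.j_mul]
    congr 1
    rw [inv_eq_iff_mul_eq_one, ← X.j_mul, mul_inv_cancel, h1]
  constructor
  · have h3 : {g : B.G | (X.j w)⁻¹ * X.j g ∈ U} = (fun g => X.j (w⁻¹ * g)) ⁻¹' (U : Set X.Z.G) := by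
      ext g
      change (X.j w)⁻¹ * X.j g ∈ U ↔ X.j (w⁻¹ * g) ∈ U
      rw [h2]
    rw [h3]
    exact hU.preimage (X.j_cont.comp (continuous_const_mul w⁻¹))
  · change (X.j w)⁻¹ * X.j w ∈ U
    rw [inv_mul_cancel]
    exact U.one_mem

/-- The traces of an element of the Galois group on `H^i` for even `i` are rational and independent of
`ℓ` if they are on `H²`. -/
theorem trace_indep {w : B.G} (hw : (X.H 2).Rational w) {i : ℕ} (hi : i ≤ X.b) (he : Even i) :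
    Indep ((X.H i).t w) := by
  classical
  obtain ⟨U, hUo, -, hU⟩ := com_all X.arith
  have hd : i + 2 * X.m ≤ X.Z.d := le_trans (by omega) X.le
  obtain ⟨A, hA, hAt⟩ := coset (X.P i) (X.embeds i hi he) (hU _ hd) (X.j w)
  obtain ⟨F, hF⟩ := X.weyl i hi he A hA
  obtain ⟨hO, hwO⟩ := open_coset X hUo w
  refine transfer (fun k ℓ g => (X.H 2).x g ℓ k) (fun k ℓ => x_cont (X.H 2) ℓ k) B.n
    (fun ℓ g => (X.H i).t g ℓ) B.n_cont (t_cont' (X.H i)) X.ℓ₀ (fun ℓ => ?_) X.m _ hO w hwO F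
    (fun g hg => ?_) hw (B.n_ne _ _) (hw 0)
  · refine (B.dense ((X.H 2).bad ∪ (X.H i).bad) X.ℓ₀ ℓ).mono ?_
    rintro σ ⟨s, hs, h0, h1, hσ⟩
    rw [Finset.mem_union, not_or] at hs
    exact ⟨rat_x hs.1 h0 h1 hσ, rat_n h0 h1 hσ, rat_t hs.2 h0 h1 hσ⟩
  · rw [← hF, ← hAt _ hg, X.twist i hi g]

/-- The traces on `H^i` for odd `i`. -/
theorem trace_odd (D : OddPart X) {w : B.G} (hw : (X.H 2).Rational w)
    (hA : D.A.Rational w) {i : ℕ} (hi : i ≤ X.b) (ho : Odd i) : Indep ((X.H i).t w) := by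
  classical
  obtain ⟨U, hUo, -, hU⟩ := com_all X.arith
  have hd : i + 2 * X.m ≤ X.Z.d := le_trans (by omega) X.le
  obtain ⟨A, hA', hAt⟩ := coset (X.P i) (D.embeds i hi ho) (hU _ hd) (X.j w)
  obtain ⟨M, F, hF⟩ := D.weyl i hi ho A hA'
  obtain ⟨hO, hwO⟩ := open_coset X hUo w
  refine transfer (κ := ℕ ⊕ ℕ)
    (Sum.elim (fun k ℓ g => (X.H 2).x g ℓ k) fun k ℓ g => D.A.x g ℓ k) ?_ B.n
    (fun ℓ g => (X.H i).t g ℓ) B.n_cont (t_cont' (X.H i)) X.ℓ₀ (fun ℓ => ?_) (M + X.m) _ hO w hwO F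
    (fun g hg => ?_) ?_ (B.n_ne _ _) (hw 0)
  · rintro (k | k) ℓ
    · exact x_cont (X.H 2) ℓ k
    · exact x_cont D.A ℓ k
  · refine (B.dense ((X.H 2).bad ∪ (X.H i).bad ∪ D.A.bad) X.ℓ₀ ℓ).mono ?_
    rintro σ ⟨s, hs, h0, h1, hσ⟩
    rw [Finset.mem_union, Finset.mem_union, not_or, not_or] at hs
    refine ⟨?_, rat_n h0 h1 hσ, rat_t hs.1.2 h0 h1 hσ⟩
    rintro (k | k)
    · exact rat_x hs.1.1 h0 h1 hσ k
    · exact rat_x hs.2 h0 h1 hσ k
  · have h3 : (fun k : ℕ ⊕ ℕ => (Sum.elim (fun k ℓ g => (X.H 2).x g ℓ k)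
        (fun k ℓ g => D.A.x g ℓ k) k : ∀ ℓ, B.G → C.Ω ℓ) X.ℓ₀ g) =
        Sum.elim ((X.H 2).x g X.ℓ₀) (D.A.x g X.ℓ₀) := by
      ext (k | k) <;> rfl
    rw [h3, ← hF, ← hAt _ hg, X.twist i hi g, pow_add, mul_assoc]
  · rintro (k | k)
    · exact hw k
    · exact hA k

end main

section rank

open Pool.Agent.Y143

variable {K V : Type} [Field K] [CharZero K] [IsAlgClosed K] [AddCommGroup V] [Module K V]
  [FiniteDimensional K V]

/-- The weight-monodromy property implies that the maps between the generalized eigenspaces have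
maximal rank. -/
theorem max_rank {Φ N : Module.End K V} {q : ℕ} (hq : 1 < q) {i : ℤ}
    (hw : ∀ e ∈ Φ.charpoly.roots, ∃ w : ℤ, IsWeilNumber q w e)
    (hN : ∀ x, N (Φ x) = (q : K) • Φ (N x)) (hp : IsMWPure q i Φ N) (α : K) :
    (∀ x ∈ Φ.maxGenEigenspace α, N x = 0 → x = 0) ∨
      ∀ y ∈ Φ.maxGenEigenspace (α / q), ∃ x ∈ Φ.maxGenEigenspace α, N x = y := by
  have hq0 : (q : K) ≠ 0 := Nat.cast_ne_zero.2 (by omega)
  by_cases hα : Φ.maxGenEigenspace α = ⊥
  · left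
    intro x hx _
    rw [hα] at hx
    exact (Submodule.mem_bot K).1 hx
  obtain ⟨w, hwα⟩ := hw α (ne_bot_iff.1 hα)
  have hle : Φ.maxGenEigenspace α ≤ WS q Φ w := le_iSup₂_of_le α hwα le_rfl
  rcases le_or_gt (i + 1) w with h | h
  · left
    intro x hx hx0
    obtain ⟨j, hj⟩ : ∃ j : ℕ, w = i + ((j + 1 : ℕ) : ℤ) := ⟨(w - i - 1).toNat, by
      push_cast
      rw [Int.toNat_of_nonneg (by omega)]
      ring⟩
    have hb := t_frm K V q hq i Φ N hw hN hp (j + 1)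
    rw [← hj] at hb
    refine hb.injOn (hle hx) (Submodule.zero_mem _) ?_
    rw [map_zero, pow_succ, Module.End.mul_apply, hx0, map_zero]
  · right
    intro y hy
    obtain ⟨j, hj⟩ : ∃ j : ℕ, w - 2 = i - ((j + 1 : ℕ) : ℤ) := ⟨(i + 1 - w).toNat, by
      push_cast
      rw [Int.toNat_of_nonneg (by omega)]
      ring⟩
    have hb := t_frm K V q hq i Φ N hw hN hp (j + 1)
    rw [← hj] at hb
    have hy' : y ∈ WS q Φ (w - 2) := by
      have h1 : Φ.maxGenEigenspace (α / q) ≤ WS q Φ (w - 2) :=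
        le_iSup₂_of_le (α / q) (P_TOM.weil_div hq hwα) le_rfl
      exact h1 hy
    obtain ⟨z, -, hz⟩ := hb.surjOn hy'
    rw [pow_succ', Module.End.mul_apply] at hz
    set x := (N ^ j) z with hx
    -- the decomposition of `x`
    set n := finrank K V with hn
    have hdis := End.generalized_eigenvec_disjoint_range_ker Φ α
    have hdis' := End.generalized_eigenvec_disjoint_range_ker Φ (α / q)
    have hgen : ∀ β, Φ.maxGenEigenspace β = Φ.genEigenspace β n := fun β =>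
      End.maxGenEigenspace_eq_genEigenspace_finrank Φ β
    have htop : Φ.genEigenrange α n ⊔ Φ.genEigenspace α n = ⊤ := by
      refine Submodule.eq_top_of_disjoint _ _ ?_ hdis
      rw [End.genEigenrange_nat, End.genEigenspace_nat]
      exact (LinearMap.finrank_range_add_finrank_ker _).ge
    obtain ⟨x₁, h1, x₂, h2, h12⟩ := Submodule.mem_sup.1 (htop ▸ Submodule.mem_top : x ∈ _)
    refine ⟨x₂, by rw [hgen]; exact h2, ?_⟩
    have hrel : N * Φ = (q : K) • (Φ * N) := LinearMap.ext hN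
    have h3 : N x₂ ∈ Φ.maxGenEigenspace (α / q) :=
      N_mem (by omega) hrel (by rw [hgen]; exact h2)
    have h4 : N x₁ ∈ Φ.genEigenrange (α / q) n := by
      rw [End.genEigenrange_nat] at h1 ⊢
      obtain ⟨z', rfl⟩ := h1
      have h5 := congrArg (fun f => f z') (N_pow_rel hrel hq0 α n)
      change ((q : K) ^ n) • ((Φ - (α / q) • (1 : Module.End K V)) ^ n) (N z') =
        N (((Φ - α • (1 : Module.End K V)) ^ n) z') at h5
      rw [← h5]
      exact Submodule.smul_mem _ _ ⟨_, rfl⟩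
    have h5 : N x₁ = y - N x₂ := by
      rw [← hz, ← h12, map_add, add_sub_cancel_right]
    have h6 : N x₁ = 0 := by
      have h7 : N x₁ ∈ Φ.genEigenspace (α / q) n := by
        rw [h5, ← hgen]
        exact Submodule.sub_mem _ hy h3
      exact (Submodule.disjoint_def.1 hdis') _ h4 h7
    rw [h6] at h5
    exact (sub_eq_zero.1 h5.symm).symm

end rank

section factor

open Pool.Agent.Y143

lemma rank_of_hk {K V : Type} [Field K] [CharZero K] [IsAlgClosed K] [TopologicalSpace K]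
    [IsTopologicalRing K] [T2Space K] [AddCommGroup V] [Module K V] {W : Type} [Group W]
    {I : Subgroup W} {Φ : W} {q : ℕ} (D : WeilDeligne K V I Φ q) {i : ℕ} (R : IsHK D i) (α : K) :
    (∀ x ∈ End.maxGenEigenspace (D.r Φ) α, D.N x = 0 → x = 0) ∨
      ∀ y ∈ End.maxGenEigenspace (D.r Φ) (α / q),
        ∃ x ∈ End.maxGenEigenspace (D.r Φ) α, D.N x = y := by
  have hpure : IsMWPure (Ideal.absNorm R.u.asIdeal) i (R.Y.E.Φ R.M.σ i) (R.M.data.N i) :=
    pure_all R.M R.le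
  have h1 := max_rank (K := K) one_lt_q (weights' R.M R.le) (R.M.data.twist i R.le) hpure α
  have hqq : α / (q : K) = α / (Ideal.absNorm R.u.asIdeal : K) := by rw [R.norm]
  rw [hqq]
  have hgen : ∀ β x, x ∈ End.maxGenEigenspace (R.Y.E.Φ R.M.σ i) β ↔
      R.e x ∈ End.maxGenEigenspace (D.r Φ) β := by
    intro β x
    rw [End.mem_maxGenEigenspace, End.mem_maxGenEigenspace]
    have h2 : ∀ (k : ℕ) x, R.e (((R.Y.E.Φ R.M.σ i - β • 1) ^ k) x) =
        (((D.r Φ : Module.End K V) - β • 1) ^ k) (R.e x) := by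
      intro k
      induction k with
      | zero => intro x; rw [pow_zero, pow_zero]; rfl
      | succ k ih =>
        intro x
        rw [pow_succ, pow_succ, Module.End.mul_apply, Module.End.mul_apply, ih]
        congr 1
        have h3 : R.e (R.Y.E.Φ R.M.σ i x) = D.r Φ (R.e x) := R.frob x
        rw [LinearMap.sub_apply, LinearMap.sub_apply, map_sub, h3]
        change _ - R.e (β • x) = _ - β • R.e x
        rw [map_smul]
    refine exists_congr fun k => ?_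
    rw [← h2, LinearEquiv.map_eq_zero_iff]
  rcases h1 with h1 | h1
  · left
    intro x hx hx0
    have h2 := h1 (R.e.symm x) ((hgen _ _).2 (by rwa [LinearEquiv.apply_symm_apply]))
      (R.e.injective (by
        have h3 : R.e (R.M.data.N i (R.e.symm x)) = D.N (R.e (R.e.symm x)) := R.mono _
        rw [h3, LinearEquiv.apply_symm_apply, hx0, map_zero]))
    exact (LinearEquiv.map_eq_zero_iff _).1 h2
  · right
    intro y hy
    obtain ⟨x, hx, hxy⟩ := h1 (R.e.symm y)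
      ((hgen _ _).2 (by rwa [LinearEquiv.apply_symm_apply]))
    refine ⟨R.e x, (hgen _ _).1 hx, ?_⟩
    have h3 : R.e (R.M.data.N i x) = D.N (R.e x) := R.mono _
    rw [← h3, hxy, LinearEquiv.apply_symm_apply]

/-- The local factors. -/
theorem factor_indep {C : Coefficients} {B : Base C} {v : Place C B} {R : Compatible B}
    (E : Localisation v R) {i : ℕ} (hE : E.Pure i) (ht : ∀ w, Indep (R.t (v.lift w)))
    [Nonempty C.L] : IndepPoly E.factor := by
  classical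
  choose a ha using ht
  have hk : ∀ ℓ, IsHK (E.D ℓ) i := fun ℓ => (hE ℓ).some
  have hr : ∀ ℓ w, LinearMap.trace (C.Ω ℓ) (R.V ℓ) ((E.D ℓ).r w) = (a w : C.Ω ℓ) :=
    fun ℓ w => (E.trace ℓ w).trans (ha w ℓ)
  obtain ⟨P, hPm, hP⟩ := exists_rev (Ω := C.Ω) (V := fun ℓ => fix v.I (E.D ℓ).r)
    (fun ℓ => LinearMap.restrict ((E.D ℓ).r v.Φ) (fix_stable v.I (E.D ℓ).r v.Φ))
    (fun k => (Nat.card v.I : ℚ)⁻¹ * ∑ᶠ u : v.I, a (v.Φ ^ k * u))
    (fun ℓ k => trace_fix v.I (E.D ℓ).r v.Φ k a (hr ℓ))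
  have hq : 0 < v.q := by
    obtain ⟨ℓ⟩ := ‹Nonempty C.L›
    rw [← (hk ℓ).norm]
    exact lt_trans zero_lt_one one_lt_q
  refine ⟨(P / Pool.Agent.U865.EF.common P v.q).reverse, fun ℓ => ?_⟩
  have hN : ∀ x ∈ fix v.I (E.D ℓ).r, (E.D ℓ).N x ∈ fix v.I (E.D ℓ).r := by
    intro x hx u hu
    have h := congrArg (fun f => f x) ((E.D ℓ).comm u hu).eq
    change (E.D ℓ).r u ((E.D ℓ).N x) = (E.D ℓ).N ((E.D ℓ).r u x) at h
    rw [h, hx u hu]
  have hmain := factor_of_rank hq (E.D ℓ).rel (fix_stable v.I (E.D ℓ).r v.Φ) hN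
    (J := (E.D ℓ).inv) (fun x => Iff.rfl) (E.D ℓ).inv_stable (fun α => ?_) hPm (hP ℓ)
  · unfold Localisation.factor WeilDeligne.factor
    rw [hmain, Pool.Agent.U865.EF.reverse_map]
  · rcases rank_of_hk (E.D ℓ) (hk ℓ) α with h | h
    · exact Or.inl fun x hx _ h0 => h x hx h0
    · refine Or.inr fun y hy hyp => ?_
      obtain ⟨x, hx, hxy⟩ := h y hy
      refine ⟨avg v.I (E.D ℓ).r x, ?_, avg_mem _ _ _, ?_⟩
      · exact End.mapsTo_maxGenEigenspace_of_comm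
          (avg_comm_frob v.I (E.D ℓ).r v.Φ).symm α hx
      · have h1 := congrArg (fun f => f x) (avg_comm v.I (E.D ℓ).r (E.D ℓ).comm).eq
        change avg v.I (E.D ℓ).r ((E.D ℓ).N x) = (E.D ℓ).N (avg v.I (E.D ℓ).r x) at h1
        rw [← h1, hxy, avg_fix _ _ hyp]

end factor

end Pool.Agent.U434.LF
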